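import Pool.Agent.Helper40_Random.Asym
import Pool.Agent.Helper40_Pisot.PowIrr
import Pool.Agent.Helper40_Pisot.Conj
import Pool.Agent.Helper94_Pisot.Criterion

set_option autoImplicit false

namespace Pool.Agent.Results.MP_e732b0_an.AlmostAll

open Pool.Agent.Helper40_Pisot
open Pool.Agent.Helper40_Random (asym exists_setup Om mem_Om cf cf_mono)
open Pool.Agent.Helper94_Pisot (SwapSmall criterion)

/-- The conditions that the problem puts on the incidence matrix: a real eigenvalue `r > 1`, every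
other eigenvalue of modulus strictly between `0` and `1`, characteristic polynomial irreducible over
`ℚ`, determinant `1` or `-1`. -/
def PisotType {d : ℕ} (M : Matrix (Fin d) (Fin d) ℤ) : Prop :=
  (∃ r : ℝ, 1 < r ∧ Polynomial.aeval (r : ℂ) M.charpoly = 0 ∧
      ∀ μ : ℂ, Polynomial.aeval μ M.charpoly = 0 → μ ≠ (r : ℂ) → 0 < ‖μ‖ ∧ ‖μ‖ < 1) ∧
    Irreducible (M.charpoly.map (Int.castRingHom ℚ)) ∧
    (M.det = 1 ∨ M.det = -1)

/-- The conclusion of the problem for the substitution `σ`: its two-sided subshift `X` with the left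
shift is semi-conjugate to a toral translation with dense orbits. -/
def ToralModel {d : ℕ} (σ : Fin d → List (Fin d)) : Prop :=
  ∀ X : Set (ℤ → Fin d),
      (∀ x : ℤ → Fin d, x ∈ X ↔
        ∀ (i : ℤ) (k : ℕ), ∃ (n : ℕ) (a : Fin d), 1 ≤ n ∧
          List.IsInfix (List.ofFn (fun j : Fin k => x (i + ((j : ℕ) : ℤ))))
            ((fun w : List (Fin d) => w.flatMap σ)^[n] [a])) →
    ∃ (m : ℕ) (γ : Fin m → UnitAddCircle),
      (∀ y : Fin m → UnitAddCircle, Dense (Set.range (fun n : ℤ => y + n • γ))) ∧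
      ∃ π : (ℤ → Fin d) → (Fin m → UnitAddCircle),
        ContinuousOn π X ∧ π '' X = Set.univ ∧
        (∀ x ∈ X, π (fun n => x (n + 1)) = π x + γ) ∧
        ∃ N : Set (Fin m → UnitAddCircle), MeasureTheory.volume N = 0 ∧
          ∀ y ∉ N, ∃! x, x ∈ X ∧ π x = y

/-- The substitutions on `d` letters whose incidence matrix is `A`: the letter `i` occurs `A i j`
times in the word `σ j`. -/
def SubstWith {d : ℕ} (A : Matrix (Fin d) (Fin d) ℤ) : Set (Fin d → List (Fin d)) :=
  {σ | ∀ i j, A i j = ((σ j).count i : ℤ)}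

/-- Almost all substitutions whose incidence matrix is a large power of a given unimodular
irreducible Pisot matrix satisfy the Pisot substitution conjecture. Let `M` be any integer
`d × d` matrix of irreducible unimodular Pisot type, `d ≥ 2` (its entries may have any sign). There
is a change of basis `P` of `ℤ^d`, the identity if `M ≥ 0`, and a number `κ > 0` such that for every
large `N` the matrix `P M^N P⁻¹` is of the same type and has positive entries, and among the
finitely many substitutions with this incidence matrix the proportion of those whose subshift is not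
semi-conjugate to a toral translation is at most `exp (- exp (κ N))`. -/
theorem result (d : ℕ) (hd : 2 ≤ d) (M : Matrix (Fin d) (Fin d) ℤ) (hM : PisotType M) :
    ∃ P Q : Matrix (Fin d) (Fin d) ℤ, P * Q = 1 ∧ ((∀ i j, 0 ≤ M i j) → P = 1) ∧
      ∃ κ : ℝ, 0 < κ ∧ ∃ N₀ : ℕ, ∀ N : ℕ, N₀ ≤ N →
        PisotType (P * M ^ N * Q) ∧ (∀ i j, 0 < (P * M ^ N * Q) i j) ∧
        (SubstWith (P * M ^ N * Q)).Finite ∧ (SubstWith (P * M ^ N * Q)).Nonempty ∧
        (({σ ∈ SubstWith (P * M ^ N * Q) | ¬ ToralModel σ}.ncard : ℕ) : ℝ) ≤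
          Real.exp (-Real.exp (κ * N)) * ((SubstWith (P * M ^ N * Q)).ncard : ℝ) := by
  classical
  obtain ⟨⟨r, hr1, hr2, hr3⟩, hirr, hdet⟩ := hM
  have h : PisotMat M r := ⟨hr1, hr2, hr3, hirr, hdet⟩
  obtain ⟨P, Q, hPQ, hP, α, l, hpf⟩ := exists_conj M r (by omega) h
  have hne : Nonempty (Fin d) := ⟨⟨0, by omega⟩⟩
  have hconj := pisot_conj h hPQ
  obtain ⟨l', C, ρ, S⟩ := exists_setup hd hconj hpf
  obtain ⟨κ, hκ, hev⟩ := asym S
  obtain ⟨K, hK⟩ := S.prim
  obtain ⟨N1, hN1⟩ := Filter.eventually_atTop.1 hev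
  refine ⟨P, Q, hPQ, hP, κ, hκ, max (max N1 K) 1, fun N hN => ?_⟩
  have hN1' : N1 ≤ N := (le_max_left _ _).trans ((le_max_left _ _).trans hN)
  have hNK : K ≤ N := (le_max_right _ _).trans ((le_max_left _ _).trans hN)
  have hN0 : 1 ≤ N := (le_max_right _ _).trans hN
  have hpos := hK N hNK
  have hpow := pisot_pow hconj hN0
  have hbound := hN1 N hN1'
  have hset : SubstWith ((P * M * Q) ^ N) =
      ((Om (P * M * Q) N : Finset (Fin d → List (Fin d))) : Set (Fin d → List (Fin d))) := by
    ext σ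
    rw [Finset.mem_coe, mem_Om hpos]
    rfl
  have hmem : ∀ σ ∈ Om (P * M * Q) N, ¬ ToralModel σ → ¬ SwapSmall σ (r ^ N) := by
    intro σ hσ hnot hsw
    apply hnot
    intro X hX
    have hinc := (mem_Om hpos).1 hσ
    have hnil : ∀ a, σ a ≠ [] := by
      intro a ha
      have h1 := hinc a a
      rw [ha] at h1
      have h2 := hpos a a
      simp at h1
      omega
    exact criterion d hd σ hnil _ hinc (r ^ N) hpow.one_lt hpow.root
      (fun μ h1 h2 => (hpow.others μ h1 h2).2) hpow.irr hpow.det hsw X hX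
  have hsub : {σ ∈ SubstWith ((P * M * Q) ^ N) | ¬ ToralModel σ} =
      (((Om (P * M * Q) N).filter (fun σ => ¬ ToralModel σ) :
        Finset (Fin d → List (Fin d))) : Set (Fin d → List (Fin d))) := by
    ext σ
    simp only [Set.mem_ofPred_eq, Finset.coe_filter]
    rw [hset, Finset.mem_coe]
  have hcard : (((Om (P * M * Q) N).filter (fun σ => ¬ ToralModel σ)).card : ℝ) ≤
      Real.exp (-Real.exp (κ * N)) * ((Om (P * M * Q) N).card : ℝ) := by
    refine le_trans ?_ hbound
    have h1 := cf_mono (Ω := Om (P * M * Q) N) (P := fun σ => ¬ ToralModel σ)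
      (Q := fun σ => ¬ SwapSmall σ (r ^ N)) hmem
    refine le_trans (le_of_eq ?_) h1
    unfold cf
    congr
  rw [← conj_pow hPQ]
  refine ⟨⟨⟨r ^ N, hpow.one_lt, hpow.root, hpow.others⟩, hpow.irr, hpow.det⟩, hpos, ?_, ?_, ?_⟩
  · rw [hset]
    exact Finset.finite_toSet _
  · rw [hset, Finset.coe_nonempty, Om, Fintype.piFinset_nonempty]
    intro j
    have h1 : (List.flatten (List.ofFn (fun i : Fin d =>
        List.replicate (Pool.Agent.Helper40_Random.col (P * M * Q) N j i) i))) ∈
        Pool.Agent.Helper40_Random.arr (Pool.Agent.Helper40_Random.col (P * M * Q) N j) := by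
      rw [Pool.Agent.Helper40_Random.mem_arr]
      intro i
      rw [List.count_flatten, List.map_ofFn, List.sum_ofFn]
      simp [List.count_replicate]
    exact ⟨_, h1⟩
  · rw [hsub, hset, Set.ncard_coe_finset, Set.ncard_coe_finset]
    exact hcard

end Pool.Agent.Results.MP_e732b0_an.AlmostAll
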