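import Mathlib
import Pool.Agent.Helper94_Pisot.Final

set_option autoImplicit false

namespace Pool.Agent.Results.MP_e732b0_an.CommonContextProducts

/-- The Pisot substitution conjecture holds for every unimodular irreducible Pisot substitution
`σ` (on any number `d ≥ 2` of letters) some power of which is a composition of substitutions `τ`,
each of which has all its images in a common context `W₁ _ W₂` around at most one letter:
`τ(a) = W₁ W₂` or `τ(a) = W₁ c W₂` for a letter `c` depending on `a` (the words `W₁`, `W₂` are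
arbitrary and may change from factor to factor). -/
theorem result :
    ∀ (d : ℕ), 2 ≤ d →
    ∀ L : List (Fin d → List (Fin d)),
    (∀ τ ∈ L, ∃ W₁ W₂ : List (Fin d), ∀ a, τ a = W₁ ++ W₂ ∨ ∃ c, τ a = W₁ ++ [c] ++ W₂) →
    ∀ σ : Fin d → List (Fin d), (∀ a, σ a ≠ []) →
    ∀ e : ℕ, 1 ≤ e →
    (∀ a, (fun w : List (Fin d) => w.flatMap σ)^[e] [a] =
      L.foldl (fun w τ => w.flatMap τ) [a]) →
    ∀ M : Matrix (Fin d) (Fin d) ℤ, (∀ i j, M i j = ((σ j).count i : ℤ)) →
    (∃ r : ℝ, 1 < r ∧ Polynomial.aeval (r : ℂ) M.charpoly = 0 ∧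
      ∀ μ : ℂ, Polynomial.aeval μ M.charpoly = 0 → μ ≠ (r : ℂ) → 0 < ‖μ‖ ∧ ‖μ‖ < 1) →
    Irreducible (M.charpoly.map (Int.castRingHom ℚ)) →
    (M.det = 1 ∨ M.det = -1) →
    ∀ X : Set (ℤ → Fin d),
      (∀ x : ℤ → Fin d, x ∈ X ↔
        ∀ (i : ℤ) (k : ℕ), ∃ (n : ℕ) (a : Fin d), 1 ≤ n ∧
          List.IsInfix (List.ofFn (fun j : Fin k => x (i + ((j : ℕ) : ℤ))))
            ((fun w : List (Fin d) => w.flatMap σ)^[n] [a])) →
    ∃ (m : ℕ) (γ : Fin m → UnitAddCircle),
      (∀ y : Fin m → UnitAddCircle, Dense (Set.range (fun n : ℤ => y + n • γ))) ∧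
      ∃ π : (ℤ → Fin d) → (Fin m → UnitAddCircle),
        ContinuousOn π X ∧ π '' X = Set.univ ∧
        (∀ x ∈ X, π (fun n => x (n + 1)) = π x + γ) ∧
        ∃ N : Set (Fin m → UnitAddCircle), MeasureTheory.volume N = 0 ∧
          ∀ y ∉ N, ∃! x, x ∈ X ∧ π x = y := by
  intro d hd L hL σ hne e he hσ M hM hP hirr hdet X hX
  have : NeZero d := ⟨by omega⟩
  exact Helper94_Pisot.criterion_Hr d hd σ hne M hM hP hirr hdet
    (fun r f l C θ D => Helper94_Pisot.familyI D L hL he hσ) X hX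

end Pool.Agent.Results.MP_e732b0_an.CommonContextProducts
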