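import Mathlib
import Pool.Agent.Helper94_Pisot.FamilyII

set_option autoImplicit false

namespace Pool.Agent.Results.MP_e732b0_an.DominantLetterProducts

/-- The Pisot substitution conjecture holds for every unimodular irreducible Pisot substitution
`σ` (on any number `d ≥ 2` of letters) some power of which is a composition of substitutions `τ`
with the following property, for one fixed letter `o` and one fixed system of integer weights
`w ≥ 1` of the letters with `w(o) = 1`: the word `τ(b)` has weight at most `w(b)` for every letter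
`b ≠ o`, and the occurrences of `o` make up more than half of the weight of `τ(o)`. The order of
the letters in the words `τ(a)` is arbitrary. -/
theorem result :
    ∀ (d : ℕ), 2 ≤ d →
    ∀ (o : Fin d) (w : Fin d → ℕ), (∀ i, 1 ≤ w i) → w o = 1 →
    ∀ L : List (Fin d → List (Fin d)),
    (∀ τ ∈ L, (∀ b, b ≠ o → ((τ b).map w).sum ≤ w b) ∧
      ((τ o).map w).sum < 2 * (τ o).count o) →
    ∀ σ : Fin d → List (Fin d), (∀ a, σ a ≠ []) →
    ∀ e : ℕ, 1 ≤ e →
    (∀ a, (fun u : List (Fin d) => u.flatMap σ)^[e] [a] =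
      L.foldl (fun u τ => u.flatMap τ) [a]) →
    ∀ M : Matrix (Fin d) (Fin d) ℤ, (∀ i j, M i j = ((σ j).count i : ℤ)) →
    (∃ r : ℝ, 1 < r ∧ Polynomial.aeval (r : ℂ) M.charpoly = 0 ∧
      ∀ μ : ℂ, Polynomial.aeval μ M.charpoly = 0 → μ ≠ (r : ℂ) → 0 < ‖μ‖ ∧ ‖μ‖ < 1) →
    Irreducible (M.charpoly.map (Int.castRingHom ℚ)) →
    (M.det = 1 ∨ M.det = -1) →
    ∀ X : Set (ℤ → Fin d),
      (∀ x : ℤ → Fin d, x ∈ X ↔
        ∀ (i : ℤ) (k : ℕ), ∃ (n : ℕ) (a : Fin d), 1 ≤ n ∧
          List.IsInfix (List.ofFn (fun j : Fin k => x (i + ((j : ℕ) : ℤ))))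
            ((fun u : List (Fin d) => u.flatMap σ)^[n] [a])) →
    ∃ (m : ℕ) (γ : Fin m → UnitAddCircle),
      (∀ y : Fin m → UnitAddCircle, Dense (Set.range (fun n : ℤ => y + n • γ))) ∧
      ∃ π : (ℤ → Fin d) → (Fin m → UnitAddCircle),
        ContinuousOn π X ∧ π '' X = Set.univ ∧
        (∀ x ∈ X, π (fun n => x (n + 1)) = π x + γ) ∧
        ∃ N : Set (Fin m → UnitAddCircle), MeasureTheory.volume N = 0 ∧
          ∀ y ∉ N, ∃! x, x ∈ X ∧ π x = y := by
  intro d hd o w hw1 hwo L hL σ hne e he hσ M hM hP hirr hdet X hX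
  have : NeZero d := ⟨by omega⟩
  exact Helper94_Pisot.criterion_Hr d hd σ hne M hM hP hirr hdet
    (fun r f l C θ D => Helper94_Pisot.familyII D L o w hw1 hwo hL he hσ) X hX

end Pool.Agent.Results.MP_e732b0_an.DominantLetterProducts
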