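import Pool.Agent.Helper40_Pisot.Approx
import Pool.Agent.Helper40_Pisot.PowIrr

set_option autoImplicit false

namespace Pool.Agent.Results.MP_e732b0_an.SmallRearrangement

open Pool.Agent.Helper40_Pisot

/-- The conditions that the problem puts on the incidence matrix: a real eigenvalue `r > 1`, every
other eigenvalue of modulus strictly between `0` and `1`, characteristic polynomial irreducible over
`ℚ`, determinant `1` or `-1`. -/
def PisotType {d : ℕ} (M : Matrix (Fin d) (Fin d) ℤ) : Prop :=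
  (∃ r : ℝ, 1 < r ∧ Polynomial.aeval (r : ℂ) M.charpoly = 0 ∧
      ∀ μ : ℂ, Polynomial.aeval μ M.charpoly = 0 → μ ≠ (r : ℂ) → 0 < ‖μ‖ ∧ ‖μ‖ < 1) ∧
    Irreducible (M.charpoly.map (Int.castRingHom ℚ)) ∧
    (M.det = 1 ∨ M.det = -1)

/-- The word `σ ^ N (a)`. -/
def iterate {d : ℕ} (σ : Fin d → List (Fin d)) (N : ℕ) (a : Fin d) : List (Fin d) :=
  (fun w : List (Fin d) => w.flatMap σ)^[N] [a]

/-- The conclusion of the problem for the substitution `σ`: its two-sided subshift `X` with the left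
shift is semi-conjugate to a toral translation with dense orbits. -/
def ToralModel {d : ℕ} (σ : Fin d → List (Fin d)) : Prop :=
  ∀ X : Set (ℤ → Fin d),
      (∀ x : ℤ → Fin d, x ∈ X ↔
        ∀ (i : ℤ) (k : ℕ), ∃ (n : ℕ) (a : Fin d), 1 ≤ n ∧
          List.IsInfix (List.ofFn (fun j : Fin k => x (i + ((j : ℕ) : ℤ))))
            ((fun w : List (Fin d) => w.flatMap σ)^[n] [a])) →
    ∃ (m : ℕ) (γ : Fin m → UnitAddCircle),
      (∀ y : Fin m → UnitAddCircle, Dense (Set.range (fun n : ℤ => y + n • γ))) ∧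
      ∃ π : (ℤ → Fin d) → (Fin m → UnitAddCircle),
        ContinuousOn π X ∧ π '' X = Set.univ ∧
        (∀ x ∈ X, π (fun n => x (n + 1)) = π x + γ) ∧
        ∃ N : Set (Fin m → UnitAddCircle), MeasureTheory.volume N = 0 ∧
          ∀ y ∉ N, ∃! x, x ∈ X ∧ π x = y

/-- For every unimodular irreducible Pisot substitution `σ` and every `ε > 0`, for all large `N`, one
can rearrange the letters inside each word `σ ^ N (i)`, changing at most a proportion `ε` of its
letters, so that the substitution `τ` obtained (which has the same incidence matrix as `σ ^ N` and is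
again unimodular irreducible Pisot) is semi-conjugate to a toral translation. -/
theorem result (d : ℕ) (hd : 2 ≤ d) (σ : Fin d → List (Fin d)) (hσ : ∀ a, σ a ≠ [])
    (M : Matrix (Fin d) (Fin d) ℤ) (hM : ∀ i j, M i j = ((σ j).count i : ℤ)) (hP : PisotType M)
    (ε : ℝ) (hε : 0 < ε) :
    ∃ N₀ : ℕ, ∀ N : ℕ, N₀ ≤ N → PisotType (M ^ N) ∧
      ∃ τ : Fin d → List (Fin d),
        (∀ i j, (M ^ N) i j = ((τ j).count i : ℤ)) ∧
        (∀ i, (τ i).Perm (iterate σ N i)) ∧
        (∀ i, (((Finset.range (iterate σ N i).length).filter fun t =>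
          (τ i)[t]? ≠ (iterate σ N i)[t]?).card : ℝ) ≤ ε * (iterate σ N i).length) ∧
        ToralModel τ := by
  obtain ⟨⟨r, hr1, hr2, hr3⟩, hirr, hdet⟩ := hP
  have h : PisotMat M r := ⟨hr1, hr2, hr3, hirr, hdet⟩
  have hne : Nonempty (Fin d) := ⟨⟨0, by omega⟩⟩
  have hM0 : ∀ i j, 0 ≤ M i j := fun i j => by rw [hM]; positivity
  obtain ⟨α, l, hpf⟩ := pfData M r h hM0
  have hα0 : α ≠ 0 := by
    intro h0
    have := hpf.α_pos ⟨0, by omega⟩
    rw [h0] at this
    simp at this
  have hind := indep_of_eig M hirr hpf.α_eig hα0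
  obtain ⟨N0, hN0⟩ := approx_power (σ := σ) hM hpf hd hσ hind hε
  refine ⟨max N0 1, fun N hN => ?_⟩
  have hN1 : 1 ≤ N := le_trans (le_max_right _ _) hN
  obtain ⟨τ, a, hperm, hham, hhead, hex⟩ := hN0 N (le_trans (le_max_left _ _) hN)
  have hpow := pisot_pow h hN1
  have hInc : Inc τ (M ^ N) := by
    intro j i
    rw [(hperm i).count_eq, count_it_single (σ := σ) hM]
  refine ⟨⟨⟨r ^ N, hpow.one_lt, hpow.root, hpow.others⟩, hpow.irr, hpow.det⟩, τ, hInc, hperm,
    hham, ?_⟩
  intro X hX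
  obtain ⟨m, rfl⟩ : ∃ m, d = m + 1 := ⟨d - 1, by omega⟩
  have hτ : ∀ i, τ i ≠ [] := by
    intro i hi
    have := hhead i
    rw [hi] at this
    simp at this
  exact core hInc (pf_pow hpf hN1) (by omega) hτ (strongCoinc_of_common hhead) (hhead a) hex X hX

end Pool.Agent.Results.MP_e732b0_an.SmallRearrangement
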